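import Mathlib
import Pool.Agent.H45.B9.Final

/-! # Almost all odd integers are `x² + 2 y² + 3 z²` with `x + y + z` a square -/

set_option autoImplicit false

namespace Pool.Agent.Results.MP_b9bf0c_nt.AlmostAllOdd

/-- For every `A` the number of odd positive integers `n ≤ N` which are not of the form
`x² + 2 y² + 3 z²` with `x + y + z` a perfect square is at most `N / (log N)^A` for all large `N`. -/
theorem result : ∀ A : ℕ, ∃ N₀ : ℕ, ∀ N : ℕ, N₀ ≤ N →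
    (({n : ℕ | 1 ≤ n ∧ n ≤ N ∧ Odd n ∧ ¬ ∃ x y z m : ℤ, (n : ℤ) = x ^ 2 + 2 * y ^ 2 + 3 * z ^ 2 ∧
      x + y + z = m ^ 2}.ncard : ℕ) : ℝ) ≤ (N : ℝ) / (Real.log N) ^ A := by
  classical
  intro A
  obtain ⟨N0, h0⟩ := Pool.Agent.H45.B9.final A
  refine ⟨N0, fun N hN => ?_⟩
  have h1 := h0 N hN
  have e : {n : ℕ | 1 ≤ n ∧ n ≤ N ∧ Odd n ∧ ¬ ∃ x y z m : ℤ, (n : ℤ) = x ^ 2 + 2 * y ^ 2 + 3 * z ^ 2 ∧
      x + y + z = m ^ 2} = (((Finset.Icc 1 N).filter (fun n : ℕ => Odd n ∧ ¬ Pool.Agent.H45.B9.Rep n) : Finset ℕ) : Set ℕ) := by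
    ext n
    simp only [Set.mem_setOf_eq, Finset.coe_filter, Finset.mem_Icc]
    unfold Pool.Agent.H45.B9.Rep
    tauto
  rw [e, Set.ncard_coe_finset]
  exact h1

end Pool.Agent.Results.MP_b9bf0c_nt.AlmostAllOdd
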